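import Pool.Agent.helper45.LOC.Defs

/-!
# Localization forcing: elementary facts
-/

set_option autoImplicit false

namespace Pool.Agent.helper45.LOC

open Set

theorem le_def {p q : Loc} : p ≤ q ↔ q.len ≤ p.len ∧ (∀ i < q.len, p.s i = q.s i) ∧ q.F ⊆ p.F ∧
    ∀ f ∈ q.F, ∀ i, q.len ≤ i → i < p.len → f i ∈ p.s i := Iff.rfl

theorem Loc.refl (p : Loc) : p ≤ p :=
  ⟨le_rfl, fun _ _ => rfl, Finset.Subset.refl _, fun _ _ _ h1 h2 => by omega⟩

theorem Loc.trans {p q r : Loc} (h : p ≤ q) (h' : q ≤ r) : p ≤ r := by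
  obtain ⟨a1, a2, a3, a4⟩ := h
  obtain ⟨b1, b2, b3, b4⟩ := h'
  refine ⟨b1.trans a1, fun i hi => (a2 i (by omega)).trans (b2 i hi), b3.trans a3, ?_⟩
  intro f hf i h1 h2
  rcases lt_or_ge i q.len with h3 | h3
  · rw [a2 i h3]
    exact b4 f hf i h1 h3
  · exact a4 f (b3 hf) i h3 h2

/-- prolongation of a condition -/
def Loc.ext (p : Loc) (N : ℕ) (A : ℕ → Finset ℕ) (H : Finset (ℕ → ℕ))
    (hA : ∀ i, p.len ≤ i → i < N → (A i).card ≤ i) (hH : H.card ≤ N) : Loc where
  len := N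
  s i := if i < p.len then p.s i else A i
  F := H
  card_s i hi := by
    split_ifs with h
    · exact p.card_s i h
    · exact hA i (by omega) hi
  card_F := hH

theorem Loc.ext_le (p : Loc) (N : ℕ) (A : ℕ → Finset ℕ) (H : Finset (ℕ → ℕ))
    (hA : ∀ i, p.len ≤ i → i < N → (A i).card ≤ i) (hH : H.card ≤ N) (hN : p.len ≤ N)
    (hF : p.F ⊆ H) (hFA : ∀ f ∈ p.F, ∀ i, p.len ≤ i → i < N → f i ∈ A i) :
    p.ext N A H hA hH ≤ p := by
  refine ⟨hN, fun i hi => ?_, hF, fun f hf i h1 h2 => ?_⟩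
  · show (if i < p.len then p.s i else A i) = p.s i
    rw [if_pos hi]
  · show f i ∈ (if i < p.len then p.s i else A i)
    rw [if_neg (by omega)]
    exact hFA f hf i h1 h2

/-- lengthen a condition without new reals -/
theorem Loc.long (p : Loc) (N : ℕ) (hN : p.len ≤ N) : ∃ q ≤ p, q.len = N ∧ q.F = p.F := by
  classical
  refine ⟨p.ext N (fun i => p.F.image fun f => f i) p.F ?_ (p.card_F.trans hN),
    p.ext_le _ _ _ _ _ hN (Finset.Subset.refl _) ?_, rfl, rfl⟩
  · intro i h1 _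
    exact (Finset.card_image_le).trans (p.card_F.trans h1)
  · intro f hf i _ _
    exact Finset.mem_image_of_mem _ hf

/-- transplantation of an extension of `q` to `p` -/
theorem Loc.transplant {p q r : Loc} (hlen : p.len = q.len) (hF : p.F = q.F) (hr : r ≤ q) :
    ∃ p1 ≤ p, p1.len = r.len ∧ p1.F = r.F ∧ (∀ i < p.len, p1.s i = p.s i) ∧
      ∀ i, p.len ≤ i → p1.s i = r.s i := by
  obtain ⟨a1, a2, a3, a4⟩ := hr
  refine ⟨p.ext r.len r.s r.F (fun i _ h => r.card_s i h) r.card_F,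
    p.ext_le _ _ _ _ _ (by omega) (by rw [hF]; exact a3) ?_, rfl, rfl, ?_, ?_⟩
  · intro f hf i h1 h2
    exact a4 f (by rw [← hF]; exact hf) i (by omega) h2
  · intro i hi
    show (if i < p.len then p.s i else r.s i) = p.s i
    rw [if_pos hi]
  · intro i hi
    show (if i < p.len then p.s i else r.s i) = r.s i
    rw [if_neg (by omega)]

theorem Reg.down {a : Set Loc} (ha : Reg a) {p q : Loc} (h : q ≤ p) (hp : p ∈ a) : q ∈ a := by
  rw [ha] at hp ⊢
  intro r hr
  exact hp r (Loc.trans hr h)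

theorem Reg.neg {a : Set Loc} (ha : Reg a) : Reg (LOC.neg a) := by
  intro p
  constructor
  · intro hp q hq
    exact ⟨q, q.refl, fun r hr => hp r (Loc.trans hr hq)⟩
  · intro hp q hq hqa
    obtain ⟨r, hr, hra⟩ := hp q hq
    exact hra r r.refl (ha.down hr hqa)

theorem Reg.sInter {S : Set (Set Loc)} (hS : ∀ a ∈ S, Reg a) : Reg (⋂₀ S) := by
  intro p
  constructor
  · intro hp q hq
    exact ⟨q, q.refl, fun a ha => (hS a ha).down hq (hp a ha)⟩
  · intro hp a ha
    rw [hS a ha]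
    intro q hq
    obtain ⟨r, hr, hra⟩ := hp q hq
    exact ⟨r, hr, hra a ha⟩

/-- joins in a complete subalgebra -/
theorem IsSub.join_mem {A : Set (Set Loc)} (hA : IsSub A) {S : Set (Set Loc)} (hS : S ⊆ A) :
    {p : Loc | ∀ q ≤ p, ∃ a ∈ S, ∃ r ≤ q, r ∈ a} ∈ A := by
  have h1 : LOC.neg (⋂₀ (LOC.neg '' S)) ∈ A := by
    refine hA.neg_mem _ (hA.sInter_mem _ ?_)
    rintro _ ⟨a, ha, rfl⟩
    exact hA.neg_mem a (hS ha)
  have h2 : LOC.neg (⋂₀ (LOC.neg '' S)) = {p : Loc | ∀ q ≤ p, ∃ a ∈ S, ∃ r ≤ q, r ∈ a} := by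
    ext p
    constructor
    · intro hp q hq
      by_contra hcon
      push Not at hcon
      refine hp q hq ?_
      rintro _ ⟨a, ha, rfl⟩ r hr
      exact hcon a ha r hr
    · intro hp q hq hq'
      obtain ⟨a, ha, r, hr, hra⟩ := hp q hq
      exact hq' _ ⟨a, ha, rfl⟩ r hr hra
  rw [← h2]
  exact h1

theorem IsSub.inter_mem {A : Set (Set Loc)} (hA : IsSub A) {ι : Type} (a : ι → Set Loc)
    (ha : ∀ i, a i ∈ A) : (⋂ i, a i) ∈ A := by
  rw [← sInter_range]
  refine hA.sInter_mem _ ?_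
  rintro _ ⟨i, rfl⟩
  exact ha i

/-! ### Blocks -/

section Blocks

variable {e : ℕ → ℕ} (he : StrictMono e)

/-- the block of `n` -/
noncomputable def blk (e : ℕ → ℕ) (n : ℕ) : ℕ := sInf {j | n < e (j + 1)}

include he in
theorem blk_eq {j n : ℕ} (h1 : e j ≤ n) (h2 : n < e (j + 1)) : blk e n = j := by
  apply le_antisymm
  · exact Nat.sInf_le h2
  · by_contra hcon
    push Not at hcon
    have h3 : n < e (blk e n + 1) := Nat.sInf_mem (s := {j | n < e (j + 1)}) ⟨j, h2⟩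
    have h4 : e (blk e n + 1) ≤ e j := he.monotone hcon
    omega

include he in
theorem blk_spec {J n : ℕ} (h : e J ≤ n) : J ≤ blk e n ∧ e (blk e n) ≤ n ∧ n < e (blk e n + 1) := by
  have hne : {j | n < e (j + 1)}.Nonempty := ⟨n, by
    have := he.id_le (n + 1)
    simp only [id] at this
    show n < e (n + 1)
    omega⟩
  have h3 : n < e (blk e n + 1) := Nat.sInf_mem hne
  have h1 : J ≤ blk e n := by
    by_contra hcon
    push Not at hcon
    have h4 : e (blk e n + 1) ≤ e J := he.monotone hcon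
    omega
  refine ⟨h1, ?_, h3⟩
  rcases Nat.eq_zero_or_pos (blk e n) with h4 | h4
  · have h5 : J = 0 := by omega
    rw [h4, ← h5]
    exact h
  · by_contra hcon
    push Not at hcon
    have h5 : blk e n ≤ blk e n - 1 := Nat.sInf_le (by
      show n < e (blk e n - 1 + 1)
      rwa [Nat.sub_add_cancel h4])
    omega

variable (π : ℕ → (ℕ → Finset ℕ) → ℕ)

/-- `π j` depends only on the block `j` -/
def Local (e : ℕ → ℕ) (π : ℕ → (ℕ → Finset ℕ) → ℕ) : Prop :=
  ∀ j (A A' : ℕ → Finset ℕ), (∀ n, e j ≤ n → n < e (j + 1) → A n = A' n) → π j A = π j A'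

variable {π} (hπ : Local e π)

include hπ in
/-- below the length of `p` the values of `ψ` are decided -/
theorem pi_eq {p q : Loc} (h : q ≤ p) {j : ℕ} (hj : e (j + 1) ≤ p.len) : π j q.s = π j p.s :=
  hπ j _ _ fun n _ h2 => h.2.1 n (by omega)

/-- invariance under change of the stem with the same values of `ψ` -/
def Inv (e : ℕ → ℕ) (π : ℕ → (ℕ → Finset ℕ) → ℕ) (a : Set Loc) : Prop :=
  ∀ (J : ℕ) (p q : Loc), p.len = e J → q.len = e J → p.F = q.F →
    (∀ j < J, π j p.s = π j q.s) → p ∈ a → q ∈ a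

include he hπ in
theorem val_reg (j x : ℕ) : Reg (val e π j x) := by
  intro p
  constructor
  · intro hp q hq
    exact ⟨q, q.refl, fun r hr => hp r (Loc.trans hr hq)⟩
  · intro hp q hq hlen
    obtain ⟨r, hr, hra⟩ := hp q hq
    have h1 := hra r r.refl (hlen.trans hr.1)
    rw [← h1]
    exact (pi_eq hπ hr hlen).symm

include he hπ in
theorem inv_sub : IsSub {a | Reg a ∧ Inv e π a} := by
  refine ⟨fun a ha => ha.1, ?_, ?_⟩
  · rintro a ⟨ha, hI⟩
    refine ⟨ha.neg, ?_⟩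
    intro J p q hp hq hF hψ hpa r hr hra
    obtain ⟨r1, hr1, hlen, -⟩ := r.long (e (r.len)) (he.id_le _)
    have hr1a : r1 ∈ a := ha.down hr1 hra
    have hr1q : r1 ≤ q := Loc.trans hr1 hr
    obtain ⟨p1, hp1, h1, h2, h3, h4⟩ := Loc.transplant (hp.trans hq.symm) hF hr1q
    have hJ : J ≤ r.len := by
      have h5 : e J ≤ e r.len := by
        rw [← hlen, ← hq]
        exact hr1q.1
      exact he.le_iff_le.1 h5
    refine hpa p1 hp1 (hI r.len r1 p1 hlen (h1.trans hlen) h2.symm ?_ hr1a)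
    intro j hj
    rcases lt_or_ge j J with hjJ | hjJ
    · have hle : e (j + 1) ≤ e J := he.monotone hjJ
      have e1 : π j r1.s = π j q.s := pi_eq hπ hr1q (by omega)
      have e2 : π j p1.s = π j p.s := pi_eq hπ hp1 (by omega)
      rw [e1, e2, hψ j hjJ]
    · have hle : e J ≤ e j := he.monotone hjJ
      exact (hπ j _ _ fun n hn _ => h4 n (by omega)).symm
  · intro S hS
    refine ⟨Reg.sInter fun a ha => (hS ha).1, ?_⟩
    intro J p q hp hq hF hψ hpa a ha
    exact (hS ha).2 J p q hp hq hF hψ (hpa a ha)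

include he hπ in
theorem val_inv (j x : ℕ) : Inv e π (val e π j x) := by
  intro J p q hp hq hF hψ hpa r hr hlen
  rcases lt_or_ge j J with hjJ | hjJ
  · have hle : e (j + 1) ≤ e J := he.monotone hjJ
    rw [pi_eq hπ hr (by omega), ← hψ j hjJ]
    exact hpa p p.refl (by omega)
  · obtain ⟨p1, hp1, h1, h2, h3, h4⟩ := Loc.transplant (hp.trans hq.symm) hF hr
    have hle : e J ≤ e j := he.monotone hjJ
    rw [← hpa p1 hp1 (by omega)]
    exact (hπ j _ _ fun n hn _ => h4 n (by omega)).symm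

include he hπ in
theorem gen_inv {a : Set Loc} (ha : a ∈ subf e π) : Reg a ∧ Inv e π a := by
  refine ha _ (inv_sub he hπ) ?_
  rintro _ ⟨j, x, rfl⟩
  exact ⟨val_reg he hπ j x, val_inv he hπ j x⟩

end Blocks

end Pool.Agent.helper45.LOC
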