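import Pool.Agent.helper45.LOC.Basic

/-!
# Localization forcing: reals which are not dominating
-/

set_option autoImplicit false

namespace Pool.Agent.helper45.LOC

open Set Filter

/-- `x` is a possible value of `ψ(j)` under the reals of `B` -/
def E (e : ℕ → ℕ) (π : ℕ → (ℕ → Finset ℕ) → ℕ) (j : ℕ) (B : Set (ℕ → ℕ)) (x : ℕ) : Prop :=
  ∃ A : ℕ → Finset ℕ, (∀ n, e j ≤ n → n < e (j + 1) → (A n).card ≤ n ∧ ∀ f ∈ B, f n ∈ A n) ∧
    π j A = x

/-- `K` reals can prevent `ψ(j) ∈ Y` -/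
def Av (e : ℕ → ℕ) (π : ℕ → (ℕ → Finset ℕ) → ℕ) (K j : ℕ) (Y : Set ℕ) : Prop :=
  ∃ B : Finset (ℕ → ℕ), B.card ≤ K ∧ ∀ x ∈ Y, ¬ E e π j (B : Set (ℕ → ℕ)) x

theorem tuple {K : ℕ} (B : Finset (ℕ → ℕ)) (hB : B.card ≤ K) :
    ∃ b : Fin K → ℕ → ℕ, ∀ f ∈ B, ∃ k, b k = f := by
  refine ⟨fun k => B.toList.getD k (fun _ => 0), fun f hf => ?_⟩
  have h1 : f ∈ B.toList := Finset.mem_toList.2 hf
  obtain ⟨i, hi, h2⟩ := List.getElem_of_mem h1
  rw [Finset.length_toList] at hi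
  refine ⟨⟨i, hi.trans_le hB⟩, ?_⟩
  simp only
  rw [List.getD_eq_getElem _ _ (by rw [Finset.length_toList]; exact hi)]
  exact h2

variable {e : ℕ → ℕ} (he : StrictMono e) {π : ℕ → (ℕ → Finset ℕ) → ℕ}

include he in
/-- pasting the reals of the blocks together -/
theorem paste {K : ℕ} (B : ℕ → Finset (ℕ → ℕ)) (hB : ∀ j, (B j).card ≤ K) :
    ∃ G : Finset (ℕ → ℕ), G.card ≤ K ∧ ∀ j, ∀ f ∈ B j, ∃ g ∈ G, ∀ n, e j ≤ n →
      n < e (j + 1) → g n = f n := by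
  classical
  choose b hb using fun j => tuple (B j) (hB j)
  refine ⟨Finset.univ.image fun (k : Fin K) n => b (blk e n) k n, ?_, ?_⟩
  · refine Finset.card_image_le.trans ?_
    rw [Finset.card_univ, Fintype.card_fin]
  · intro j f hf
    obtain ⟨k, hk⟩ := hb j f hf
    refine ⟨_, Finset.mem_image_of_mem _ (Finset.mem_univ k), fun n h1 h2 => ?_⟩
    rw [blk_eq he h1 h2, hk]

theorem E_mono {j : ℕ} {B G : Set (ℕ → ℕ)} {x : ℕ}
    (h : ∀ f ∈ B, ∃ g ∈ G, ∀ n, e j ≤ n → n < e (j + 1) → g n = f n) (hx : E e π j G x) :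
    E e π j B x := by
  obtain ⟨A, hA, hx⟩ := hx
  refine ⟨A, fun n h1 h2 => ⟨(hA n h1 h2).1, fun f hf => ?_⟩, hx⟩
  obtain ⟨g, hg, hgf⟩ := h f hf
  rw [← hgf n h1 h2]
  exact (hA n h1 h2).2 g hg

variable (hπ : Local e π)

include he hπ in
/-- a countable family of bounds for `d(n)` -/
theorem bound {d : ℕ → ℕ → Set Loc} (hd : IsReal (subf e π) d) {K K' J : ℕ} (hK' : K' ≤ e J)
    (hb : ∀ j ≥ J, ∀ Y : Set ℕ, (∀ X : Finset ℕ, (X : Set ℕ) ⊆ Y → Av e π K j X) →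
      Av e π K' j Y) (s : ℕ → Finset ℕ) (hs : ∀ i < e J, (s i).card ≤ i) (n : ℕ) :
    ∃ m, ∀ q : Loc, q.len = e J → (∀ i < e J, q.s i = s i) → q.F.card ≤ K →
      ¬ ∀ r ≤ q, ∀ v, r ∈ d n v → m ≤ v := by
  classical
  by_contra hcon
  push Not at hcon
  choose qm h1 h2 h3 h4 using hcon
  let U : Ultrafilter ℕ := hyperfilter ℕ
  let Y : ℕ → Set ℕ := fun j => {x | ∀ᶠ m in (U : Filter ℕ), ¬ E e π j ((qm m).F : Set (ℕ → ℕ)) x}
  have hY : ∀ j ≥ J, Av e π K' j (Y j) := by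
    intro j hj
    refine hb j hj _ fun X hX => ?_
    have h5 : ∀ᶠ m in (U : Filter ℕ), ∀ x ∈ X, ¬ E e π j ((qm m).F : Set (ℕ → ℕ)) x := by
      rw [Finset.eventually_all]
      exact fun x hx => hX hx
    obtain ⟨m, hm⟩ := h5.exists
    exact ⟨(qm m).F, h3 m, fun x hx => hm x hx⟩
  have hY' : ∀ j, ∃ B : Finset (ℕ → ℕ), B.card ≤ K' ∧ (J ≤ j → ∀ x ∈ Y j,
      ¬ E e π j (B : Set (ℕ → ℕ)) x) := by
    intro j
    rcases lt_or_ge j J with hj | hj
    · exact ⟨∅, by simp, fun h => by omega⟩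
    · obtain ⟨B, hB1, hB2⟩ := hY j hj
      exact ⟨B, hB1, fun _ => hB2⟩
  choose B hB1 hB2 using hY'
  obtain ⟨G, hG1, hG2⟩ := paste he B hB1
  let g0 : Loc := ⟨e J, s, G, hs, hG1.trans hK'⟩
  obtain ⟨q, hq, v, hqv⟩ := hd.total n g0
  obtain ⟨q1, hq1, hlen1, hF1⟩ := q.long (e (q.len + q.F.card + K)) (by
    have := he.id_le (q.len + q.F.card + K)
    simp only [id] at this
    omega)
  obtain ⟨J2, hJ2⟩ : ∃ J2, J2 = q.len + q.F.card + K := ⟨_, rfl⟩
  rw [← hJ2] at hlen1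
  have hJ2e : q.len + q.F.card + K ≤ e J2 := by
    rw [hJ2]
    exact he.id_le _
  have hq1v : q1 ∈ d n v := (gen_inv he hπ (hd.mem n v)).1.down hq1 hqv
  have hq1g : q1 ≤ g0 := Loc.trans hq1 hq
  have hg0len : g0.len = e J := rfl
  -- the values of `q1` are possible for almost all `m`
  have h5 : ∀ᶠ m in (U : Filter ℕ), ∀ j ∈ Finset.Ico J J2,
      E e π j ((qm m).F : Set (ℕ → ℕ)) (π j q1.s) := by
    rw [Finset.eventually_all]
    intro j hj
    rw [Finset.mem_Ico] at hj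
    have hle1 : e J ≤ e j := he.monotone hj.1
    have hle2 : e (j + 1) ≤ e J2 := he.monotone hj.2
    by_contra h6
    rw [← Ultrafilter.eventually_not] at h6
    refine hB2 j hj.1 (π j q1.s) h6 (E_mono (hG2 j) ⟨q1.s, fun k hk1 hk2 => ⟨?_, ?_⟩, rfl⟩)
    · exact q1.card_s k (by omega)
    · intro f hf
      exact hq1g.2.2.2 f hf k (by omega) (by omega)
  have h6 : ∀ᶠ m in (U : Filter ℕ), v < m := by
    have h7 : (U : Filter ℕ) ≤ cofinite := hyperfilter_le_cofinite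
    rw [Nat.cofinite_eq_atTop] at h7
    exact h7 (eventually_gt_atTop v)
  obtain ⟨m, hm, hvm⟩ := (h5.and h6).exists
  have h8 : ∀ j, ∃ A : ℕ → Finset ℕ, J ≤ j → j < J2 → (∀ k, e j ≤ k → k < e (j + 1) →
      (A k).card ≤ k ∧ ∀ f ∈ (qm m).F, f k ∈ A k) ∧ π j A = π j q1.s := by
    intro j
    by_cases hj : J ≤ j ∧ j < J2
    · obtain ⟨A, hA1, hA2⟩ := hm j (Finset.mem_Ico.2 hj)
      exact ⟨A, fun _ _ => ⟨hA1, hA2⟩⟩
    · exact ⟨fun _ => ∅, fun a b => absurd ⟨a, b⟩ hj⟩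
  choose A hA using h8
  have hAk : ∀ k, e J ≤ k → k < e J2 → (A (blk e k) k).card ≤ k ∧
      ∀ f ∈ (qm m).F, f k ∈ A (blk e k) k := by
    intro k hk1 hk2
    obtain ⟨a1, a2, a3⟩ := blk_spec he hk1
    have a4 : blk e k < J2 := by
      by_contra hc
      push Not at hc
      have := he.monotone hc
      omega
    exact (hA _ a1 a4).1 k a2 a3
  have hJJ : e J ≤ e J2 := by
    rw [← hlen1, ← hg0len]
    exact hq1g.1
  have hJJ' : J ≤ J2 := he.le_iff_le.1 hJJ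
  -- the new condition with the same values of `ψ`
  let w : Loc := (qm m).ext (e J2) (fun k => A (blk e k) k) q1.F
    (fun k hk1 hk2 => (hAk k (by rw [← h1 m]; exact hk1) hk2).1) (hlen1 ▸ q1.card_F)
  have hws : ∀ k, w.s k = if k < e J then (qm m).s k else A (blk e k) k := by
    intro k
    show (if k < (qm m).len then (qm m).s k else A (blk e k) k) = _
    rw [h1 m]
  have hwv : w ∈ d n v := by
    refine (gen_inv he hπ (hd.mem n v)).2 J2 q1 w hlen1 rfl rfl ?_ hq1v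
    intro j hj
    rcases lt_or_ge j J with hjJ | hjJ
    · have hle : e (j + 1) ≤ e J := he.monotone hjJ
      refine hπ j _ _ fun k hk1 hk2 => ?_
      rw [hws, if_pos (by omega), h2 m k (by omega)]
      exact hq1g.2.1 k (by show k < e J; omega)
    · rw [← (hA j hjJ hj).2]
      have hle : e J ≤ e j := he.monotone hjJ
      refine hπ j _ _ fun k hk1 hk2 => ?_
      rw [hws, if_neg (by omega), blk_eq he hk1 hk2]
  have hcard : (q1.F ∪ (qm m).F).card ≤ e J2 := by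
    refine (Finset.card_union_le _ _).trans ?_
    have := h3 m
    rw [hF1]
    omega
  let w' : Loc := ⟨e J2, w.s, q1.F ∪ (qm m).F, w.card_s, hcard⟩
  have hw'w : w' ≤ w := ⟨le_rfl, fun _ _ => rfl, Finset.subset_union_left,
    fun f hf i a b => absurd a (not_le.2 b)⟩
  have hw'm : w' ≤ qm m := by
    refine ⟨by rw [h1 m]; exact hJJ, fun i hi => ?_, Finset.subset_union_right, ?_⟩
    · rw [h1 m] at hi
      show w.s i = _
      rw [hws, if_pos hi]
    · intro f hf i a b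
      rw [h1 m] at a
      show f i ∈ w.s i
      rw [hws, if_neg (by omega)]
      exact (hAk i a b).2 f hf
  have hw'v : w' ∈ d n v := (gen_inv he hπ (hd.mem n v)).1.down hw'w hwv
  have := h4 m w' hw'm v hw'v
  omega

/-- a function above countably many functions almost everywhere -/
theorem exists_above {ι : Type} [Countable ι] (h : ι → ℕ → ℕ) :
    ∃ x : ℕ → ℕ, ∀ i, ∀ᶠ n in atTop, h i n ≤ x n := by
  classical
  rcases isEmpty_or_nonempty ι with hι | hι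
  · exact ⟨fun _ => 0, fun i => hι.elim i⟩
  · obtain ⟨φ, hφ⟩ := exists_surjective_nat ι
    refine ⟨fun n => (Finset.range (n + 1)).sup fun k => h (φ k) n, fun i => ?_⟩
    obtain ⟨k, rfl⟩ := hφ i
    filter_upwards [eventually_ge_atTop k] with n hn
    exact Finset.le_sup (f := fun k => h (φ k) n) (Finset.mem_range.2 (by omega))

include he hπ in
/-- **Case (b).** No dominating real. -/
theorem not_dominating {d : ℕ → ℕ → Set Loc} (hd : IsReal (subf e π) d)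
    (hb : ∀ K, ∃ K' J, ∀ j ≥ J, ∀ Y : Set ℕ,
      (∀ X : Finset ℕ, (X : Set ℕ) ⊆ Y → Av e π K j X) → Av e π K' j Y) (p0 : Loc) :
    ¬ Dominating p0 d := by
  classical
  intro hdom
  choose K' J hb using hb
  -- the index set
  let ι : Type := (J : ℕ) × (Fin (e J) → Finset ℕ) × ℕ
  have hcount : Countable ι := by
    show Countable ((J : ℕ) × (Fin (e J) → Finset ℕ) × ℕ)
    infer_instance
  have key : ∀ i : ι, ∃ h : ℕ → ℕ, (∀ k : Fin (e i.1), (i.2.1 k).card ≤ k) → K' i.2.2 ≤ e i.1 →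
      J i.2.2 ≤ i.1 → ∀ n, ∀ q : Loc, q.len = e i.1 → (∀ k : Fin (e i.1), q.s k = i.2.1 k) →
      q.F.card ≤ i.2.2 → ¬ ∀ r ≤ q, ∀ v, r ∈ d n v → h n ≤ v := by
    rintro ⟨J1, σ, K⟩
    by_cases hc : (∀ k : Fin (e J1), (σ k).card ≤ k) ∧ K' K ≤ e J1 ∧ J K ≤ J1
    · obtain ⟨c1, c2, c3⟩ := hc
      have h1 := bound he hπ hd c2 (K := K) (fun j hj => hb K j (le_trans c3 hj))
        (fun i => if h : i < e J1 then σ ⟨i, h⟩ else ∅) (fun i hi => by
          rw [dif_pos hi]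
          exact c1 ⟨i, hi⟩)
      choose h hh using h1
      refine ⟨h, fun _ _ _ n q hq1 hq2 hq3 => hh n q hq1 (fun i hi => ?_) hq3⟩
      rw [dif_pos hi]
      exact hq2 ⟨i, hi⟩
    · exact ⟨fun _ => 0, fun a b c => absurd ⟨a, b, c⟩ hc⟩
  choose h hh using key
  obtain ⟨x, hx⟩ := exists_above h
  obtain ⟨q, -, N, hq⟩ := hdom x p0 p0.refl
  obtain ⟨K, hK⟩ : ∃ K, K = q.F.card := ⟨_, rfl⟩
  obtain ⟨J1, hJ1⟩ : ∃ J1, J1 = q.len + K' K + J K := ⟨_, rfl⟩
  have hJ1e : J1 ≤ e J1 := he.id_le _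
  obtain ⟨q1, hq1, hlen, hF⟩ := q.long (e J1) (by omega)
  let i : ι := ⟨J1, fun k => q1.s k, K⟩
  have h1 := hh i (fun k => q1.card_s k (by rw [hlen]; exact k.2)) (by show K' K ≤ e J1; omega)
    (by show J K ≤ J1; omega)
  obtain ⟨n, hn1, hn2⟩ := ((hx i).and (eventually_ge_atTop N)).exists
  refine h1 n q1 hlen (fun _ => rfl) (by show q1.F.card ≤ K; rw [hF, hK]) ?_
  intro r hr v hv
  exact hn1.trans (hq n hn2 v r (Loc.trans hr hq1) hv)

end Pool.Agent.helper45.LOC
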