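import Mathlib

/-!
# Localization forcing, its subforcings, dominating reals and Hechler reals: definitions
-/

set_option autoImplicit false

namespace Pool.Agent.helper45.LOC

/-- conditions `(s, F)` of localization forcing: `s` is a sequence of length `len` (its values
beyond `len` play no role) with `|s i| ≤ i`, and `F` is a finite set of reals, `|F| ≤ len` -/
structure Loc where
  len : ℕ
  s : ℕ → Finset ℕ
  F : Finset (ℕ → ℕ)
  card_s : ∀ i < len, (s i).card ≤ i
  card_F : F.card ≤ len

/-- `p ≤ q`: the sequence of `p` prolongs that of `q`, the finite set is larger, and the new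
terms of the sequence contain the values of the reals of `q` -/
instance : LE Loc :=
  ⟨fun p q => q.len ≤ p.len ∧ (∀ i < q.len, p.s i = q.s i) ∧ q.F ⊆ p.F ∧
    ∀ f ∈ q.F, ∀ i, q.len ≤ i → i < p.len → f i ∈ p.s i⟩

/-- conditions `(s, f)` of Hechler forcing: `s` is a sequence of length `len` (its values beyond
`len` play no role) -/
structure Hec where
  len : ℕ
  s : ℕ → ℕ
  f : ℕ → ℕ

/-- `c ≤ c'`: the sequence of `c` prolongs that of `c'`, the real is larger everywhere, and the
new terms of the sequence are above the real of `c'` -/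
instance : LE Hec :=
  ⟨fun c c' => c'.len ≤ c.len ∧ (∀ i < c'.len, c.s i = c'.s i) ∧ (∀ i, c'.f i ≤ c.f i) ∧
    ∀ i, c'.len ≤ i → i < c.len → c'.f i ≤ c.s i⟩

/-- regular open sets of conditions (the elements of the regular open algebra) -/
def Reg (a : Set Loc) : Prop := ∀ p, p ∈ a ↔ ∀ q ≤ p, ∃ r ≤ q, r ∈ a

/-- the complement in the regular open algebra -/
def neg (a : Set Loc) : Set Loc := {p | ∀ q ≤ p, q ∉ a}

/-- complete subalgebras of the regular open algebra of localization forcing -/
structure IsSub (A : Set (Set Loc)) : Prop where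
  reg : ∀ a ∈ A, Reg a
  neg_mem : ∀ a ∈ A, neg a ∈ A
  sInter_mem : ∀ S ⊆ A, ⋂₀ S ∈ A

/-- the complete subalgebra generated by a family of regular open sets -/
def gen (S : Set (Set Loc)) : Set (Set Loc) := {a | ∀ A, IsSub A → S ⊆ A → a ∈ A}

/-- names for a real in the extension by the subforcing `A`: `d n m` is the value of
`d(n) = m` -/
structure IsReal (A : Set (Set Loc)) (d : ℕ → ℕ → Set Loc) : Prop where
  mem : ∀ n m, d n m ∈ A
  disj : ∀ n m m', m ≠ m' → d n m ∩ d n m' = ∅
  total : ∀ n p, ∃ q ≤ p, ∃ m, q ∈ d n m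

/-- the condition `p0` forces that the real `d` dominates the reals of the ground model -/
def Dominating (p0 : Loc) (d : ℕ → ℕ → Set Loc) : Prop :=
  ∀ x : ℕ → ℕ, ∀ p ≤ p0, ∃ q ≤ p, ∃ N, ∀ n ≥ N, ∀ m, ∀ r ≤ q, r ∈ d n m → x n ≤ m

/-- every condition forces that the real `d` is generic over the ground model for Hechler
forcing: for every dense set `E`, it is forced that some `(t, g) ∈ E` has `t ⊆ d` and
`g(i) ≤ d(i)` for `i ≥ |t|` -/
def Hechler (d : ℕ → ℕ → Set Loc) : Prop :=
  ∀ E : Set Hec, (∀ c, ∃ c' ∈ E, c' ≤ c) → ∀ p : Loc, ∃ q ≤ p, ∃ c ∈ E,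
    (∀ i < c.len, q ∈ d i (c.s i)) ∧ ∀ i ≥ c.len, ∀ m, ∀ r ≤ q, r ∈ d i m → c.f i ≤ m

/-- some condition forces that the extension by the subforcing `A` contains a dominating real -/
def AddsDominating (A : Set (Set Loc)) : Prop := ∃ d, IsReal A d ∧ ∃ p, Dominating p d

/-- every condition forces that the extension by the subforcing `A` contains a generic real for
Hechler forcing -/
def AddsHechler (A : Set (Set Loc)) : Prop := ∃ d, IsReal A d ∧ Hechler d

/-- the value of `ψ(j) = x`, where `ψ(j) = π j φ` for the generic slalom `φ`, and `π j φ` depends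
only on `φ` below `e (j + 1)` -/
def val (e : ℕ → ℕ) (π : ℕ → (ℕ → Finset ℕ) → ℕ) (j x : ℕ) : Set Loc :=
  {p | ∀ q ≤ p, e (j + 1) ≤ q.len → π j q.s = x}

/-- the subforcing generated by the sequence `ψ` with `ψ(j) = π j φ` -/
def subf (e : ℕ → ℕ) (π : ℕ → (ℕ → Finset ℕ) → ℕ) : Set (Set Loc) :=
  gen {a | ∃ j x, a = val e π j x}

end Pool.Agent.helper45.LOC
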