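import Pool.Agent.helper45.LOC.Bound

/-!
# Localization forcing: reading a Hechler real
-/

set_option autoImplicit false

namespace Pool.Agent.helper45.LOC

open Set Filter

/-- finite blocks which meet all sets of a countable family of infinite sets -/
theorem exists_Z {ι : Type} [Countable ι] (W : ι → Set ℕ) (hW : ∀ i, (W i).Infinite) :
    ∃ Z : ℕ → ℕ, (∀ m, {x | Z x ≤ m}.Finite) ∧ ∀ i, ∃ f, ∀ k ≥ f, ∃ x ∈ W i, Z x = k := by
  classical
  rcases isEmpty_or_nonempty ι with hι | hι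
  · exact ⟨fun x => x, fun m => finite_Iic m, fun i => hι.elim i⟩
  obtain ⟨φ, hφ⟩ := exists_surjective_nat ι
  have step : ∀ k a : ℕ, ∃ b, a < b ∧ ∀ i ≤ k, ∃ x ∈ W (φ i), a < x ∧ x ≤ b := by
    intro k a
    have h1 : ∀ i : ℕ, ∃ x ∈ W (φ i), a < x := fun i => (hW (φ i)).exists_gt a
    choose x hx1 hx2 using h1
    refine ⟨(Finset.range (k + 1)).sup x, ?_, ?_⟩
    · exact (hx2 0).trans_le (Finset.le_sup (f := x) (Finset.mem_range.2 (by omega)))
    · intro i hi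
      exact ⟨x i, hx1 i, hx2 i, Finset.le_sup (f := x) (Finset.mem_range.2 (by omega))⟩
  choose b hb1 hb2 using step
  let N : ℕ → ℕ := fun k => Nat.rec 0 (fun k a => b k a) k
  have hN : ∀ k, N (k + 1) = b k (N k) := fun k => rfl
  have hmono : StrictMono N := strictMono_nat_of_lt_succ fun k => by
    rw [hN]
    exact hb1 k (N k)
  have hne : ∀ x, {k | x ≤ N (k + 1)}.Nonempty := fun x => ⟨x, by
    have := hmono.id_le (x + 1)
    simp only [id] at this
    show x ≤ N (x + 1)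
    omega⟩
  refine ⟨fun x => sInf {k | x ≤ N (k + 1)}, fun m => ?_, fun i => ?_⟩
  · refine (finite_Iic (N (m + 1))).subset fun x hx => ?_
    have h1 : x ≤ N (sInf {k | x ≤ N (k + 1)} + 1) := Nat.sInf_mem (hne x)
    have h2 : sInf {k | x ≤ N (k + 1)} ≤ m := hx
    exact h1.trans (hmono.monotone (Nat.add_le_add_right h2 1))
  · obtain ⟨k0, rfl⟩ := hφ i
    refine ⟨k0, fun k hk => ?_⟩
    obtain ⟨x, hx1, hx2, hx3⟩ := hb2 k (N k) k0 hk
    refine ⟨x, hx1, le_antisymm (Nat.sInf_le hx3) ?_⟩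
    by_contra hcon
    push Not at hcon
    have h1 : x ≤ N (sInf {k | x ≤ N (k + 1)} + 1) := Nat.sInf_mem (hne x)
    have h2 : N (sInf {k | x ≤ N (k + 1)} + 1) ≤ N k := hmono.monotone hcon
    omega

theorem count_surj (P : ℕ → Prop) [DecidablePred P] (L i : ℕ) (h : i < Nat.count P L) :
    ∃ l < L, P l ∧ Nat.count P l = i := by
  induction L with
  | zero => simp at h
  | succ L ih =>
    rw [Nat.count_succ] at h
    by_cases h1 : i < Nat.count P L
    · obtain ⟨l, hl, h2, h3⟩ := ih h1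
      exact ⟨l, by omega, h2, h3⟩
    · by_cases hP : P L
      · rw [if_pos hP] at h
        exact ⟨L, by omega, hP, by omega⟩
      · rw [if_neg hP] at h
        omega

theorem count_congr' (P Q : ℕ → Prop) [DecidablePred P] [DecidablePred Q] (L : ℕ)
    (h : ∀ l < L, P l ↔ Q l) : Nat.count P L = Nat.count Q L := by
  induction L with
  | zero => simp
  | succ L ih =>
    rw [Nat.count_succ, Nat.count_succ, ih fun l hl => h l (by omega)]
    by_cases hP : P L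
    · rw [if_pos hP, if_pos ((h L (by omega)).1 hP)]
    · rw [if_neg hP, if_neg fun hQ => hP ((h L (by omega)).2 hQ)]

variable {e : ℕ → ℕ} (he : StrictMono e) {π : ℕ → (ℕ → Finset ℕ) → ℕ}

/-- the sequence of blocks from which the Hechler real is read -/
theorem blocks {K : ℕ} (ha : ∀ K' J, ∃ j ≥ J, ∃ Y : Set ℕ,
    (∀ X : Finset ℕ, (X : Set ℕ) ⊆ Y → Av e π K j X) ∧ ¬ Av e π K' j Y) :
    ∃ (Jl : ℕ → ℕ) (Y : ℕ → Set ℕ), StrictMono Jl ∧
      (∀ l, ∀ X : Finset ℕ, (X : Set ℕ) ⊆ Y l → Av e π K (Jl l) X) ∧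
      ∀ l, ¬ Av e π l (Jl l) (Y l) := by
  choose jf hj Yf h1 h2 using ha
  let low : ℕ → ℕ := fun l => Nat.rec 0 (fun l a => jf l a + 1) l
  refine ⟨fun l => jf l (low l), fun l => Yf l (low l), strictMono_nat_of_lt_succ fun l => ?_,
    fun l => h1 l (low l), fun l => h2 l (low l)⟩
  have h3 : low (l + 1) = jf l (low l) + 1 := rfl
  have h4 := hj (l + 1) (low (l + 1))
  show jf l (low l) < jf (l + 1) (low (l + 1))
  omega

/-- the coding of one block -/
theorem coding {K l j : ℕ} {Y : Set ℕ}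
    (h1 : ∀ X : Finset ℕ, (X : Set ℕ) ⊆ Y → Av e π K j X) (h2 : ¬ Av e π l j Y) :
    ∃ Z : ℕ → ℕ, (∀ m, {x | Z x ≤ m}.Finite) ∧ ∀ F : Finset (ℕ → ℕ), F.card + K ≤ l →
      ∃ f, ∀ k ≥ f, ∃ x ∈ Y, E e π j (F : Set (ℕ → ℕ)) x ∧ Z x = k := by
  classical
  rcases lt_or_ge l K with hl | hl
  · exact ⟨fun x => x, fun m => finite_Iic m, fun F hF => by omega⟩
  let ex : (Fin (l - K) → Fin (e (j + 1)) → ℕ) → Fin (l - K) → ℕ → ℕ :=
    fun b k n => if h : n < e (j + 1) then b k ⟨n, h⟩ else 0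
  have hinf : ∀ b : Fin (l - K) → Fin (e (j + 1)) → ℕ,
      {x | x ∈ Y ∧ E e π j (range (ex b)) x}.Infinite := by
    intro b hfin
    obtain ⟨B, hB1, hB2⟩ := h1 hfin.toFinset (by
      intro x hx
      have hx' := hfin.mem_toFinset.1 hx
      exact hx'.1)
    apply h2
    refine ⟨Finset.univ.image (ex b) ∪ B, ?_, fun x hx hE => ?_⟩
    · refine (Finset.card_union_le _ _).trans ?_
      have : (Finset.univ.image (ex b)).card ≤ l - K := by
        refine Finset.card_image_le.trans ?_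
        rw [Finset.card_univ, Fintype.card_fin]
      omega
    · have hE1 : E e π j (range (ex b)) x := by
        refine E_mono (fun f hf => ⟨f, ?_, fun _ _ _ => rfl⟩) hE
        obtain ⟨k, rfl⟩ := hf
        exact Finset.mem_union_left _ (Finset.mem_image_of_mem _ (Finset.mem_univ k))
      have hE2 : E e π j (B : Set (ℕ → ℕ)) x := by
        refine E_mono (fun f hf => ⟨f, ?_, fun _ _ _ => rfl⟩) hE
        exact Finset.mem_union_right _ hf
      exact hB2 x (hfin.mem_toFinset.2 ⟨hx, hE1⟩) hE2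
  obtain ⟨Z, hZ1, hZ2⟩ := exists_Z _ hinf
  refine ⟨Z, hZ1, fun F hF => ?_⟩
  obtain ⟨b0, hb0⟩ := tuple (K := l - K) F (by omega)
  obtain ⟨f, hf⟩ := hZ2 fun k n => b0 k n
  refine ⟨f, fun k hk => ?_⟩
  obtain ⟨x, ⟨hx1, hx2⟩, hx3⟩ := hf k hk
  refine ⟨x, hx1, E_mono (fun f hf => ?_) hx2, hx3⟩
  obtain ⟨i, hi⟩ := hb0 f hf
  refine ⟨ex (fun k n => b0 k n) i, ⟨i, rfl⟩, fun n _ hn => ?_⟩
  show (if h : n < e (j + 1) then b0 i n else 0) = f n
  rw [dif_pos hn, hi]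

section Read

variable (e π)
variable (Jl : ℕ → ℕ) (Y : ℕ → Set ℕ) (Z : ℕ → ℕ → ℕ)

/-- the value of the block `l` is read -/
def Occ (s : ℕ → Finset ℕ) (l : ℕ) : Prop := π (Jl l) s ∈ Y l

open Classical in
/-- the conditions which decide that the `i`-th value which is read is `m` -/
def O (i m : ℕ) : Set Loc :=
  {p | ∃ l, e (Jl l + 1) ≤ p.len ∧ Occ π Jl Y p.s l ∧ Nat.count (Occ π Jl Y p.s) l = i ∧
    Z l (π (Jl l) p.s) = m}

/-- the name of the real which is read -/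
def zn (i m : ℕ) : Set Loc := {p | ∀ q ≤ p, ∃ r ≤ q, r ∈ O e π Jl Y Z i m}

variable {e π Jl Y Z}
variable (hπ : Local e π) (hJ : StrictMono Jl)

include he hπ hJ in
theorem pi_eq' {p q : Loc} (h : q ≤ p) {l l' : ℕ} (hl : e (Jl l + 1) ≤ p.len) (hl' : l' ≤ l) :
    π (Jl l') q.s = π (Jl l') p.s := by
  refine pi_eq hπ h (le_trans (he.monotone ?_) hl)
  have := hJ.monotone hl'
  omega

include he hπ hJ in
theorem O_down {i m : ℕ} {p q : Loc} (h : q ≤ p) (hp : p ∈ O e π Jl Y Z i m) :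
    q ∈ O e π Jl Y Z i m := by
  classical
  obtain ⟨l, h1, h2, h3, h4⟩ := hp
  have h5 : ∀ l' ≤ l, π (Jl l') q.s = π (Jl l') p.s := fun l' hl' => pi_eq' he hπ hJ h h1 hl'
  refine ⟨l, h1.trans h.1, ?_, ?_, ?_⟩
  · show π (Jl l) q.s ∈ Y l
    rw [h5 l le_rfl]
    exact h2
  · rw [← h3]
    refine count_congr' _ _ _ fun l' hl' => ?_
    show π (Jl l') q.s ∈ Y l' ↔ π (Jl l') p.s ∈ Y l'
    rw [h5 l' hl'.le]
  · rw [h5 l le_rfl]
    exact h4

theorem O_disj {i m m' : ℕ} {p : Loc} (h : p ∈ O e π Jl Y Z i m) (h' : p ∈ O e π Jl Y Z i m') :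
    m = m' := by
  classical
  obtain ⟨l, -, h2, h3, h4⟩ := h
  obtain ⟨l', -, h2', h3', h4'⟩ := h'
  have : l = l' := Nat.count_injective h2 h2' (h3.trans h3'.symm)
  subst this
  rw [← h4, ← h4']

include he hπ hJ in
theorem zn_mem (i m : ℕ) : zn e π Jl Y Z i m ∈ subf e π := by
  classical
  intro A hA hS
  let T : ℕ × (ℕ → ℕ) → Set Loc := fun c => ⋂ l' : Fin (c.1 + 1), val e π (Jl l') (c.2 l')
  let good : Set (ℕ × (ℕ → ℕ)) := {c | c.2 c.1 ∈ Y c.1 ∧
    Nat.count (fun l => c.2 l ∈ Y l) c.1 = i ∧ Z c.1 (c.2 c.1) = m}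
  have hT : T '' good ⊆ A := by
    rintro _ ⟨c, -, rfl⟩
    exact hA.inter_mem _ fun l' => hS ⟨_, _, rfl⟩
  have h1 := hA.join_mem hT
  have h2 : {p : Loc | ∀ q ≤ p, ∃ a ∈ T '' good, ∃ r ≤ q, r ∈ a} = zn e π Jl Y Z i m := by
    ext p
    constructor
    · intro hp q hq
      obtain ⟨_, ⟨c, hc, rfl⟩, r, hr, hrT⟩ := hp q hq
      obtain ⟨c1, c2, c3⟩ := hc
      obtain ⟨r1, hr1, hlen, -⟩ := r.long (r.len + e (Jl c.1 + 1)) (by omega)
      have h3 : ∀ l' ≤ c.1, π (Jl l') r1.s = c.2 l' := by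
        intro l' hl'
        have h4 : r ∈ val e π (Jl l') (c.2 l') := mem_iInter.1 hrT ⟨l', by omega⟩
        refine h4 r1 hr1 (le_trans (he.monotone ?_) (by omega : e (Jl c.1 + 1) ≤ r1.len))
        have := hJ.monotone hl'
        omega
      refine ⟨r1, Loc.trans hr1 hr, c.1, by omega, ?_, ?_, ?_⟩
      · show π (Jl c.1) r1.s ∈ Y c.1
        rw [h3 _ le_rfl]
        exact c1
      · rw [← c2]
        refine count_congr' _ _ _ fun l' hl' => ?_
        show π (Jl l') r1.s ∈ Y l' ↔ _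
        rw [h3 l' hl'.le]
      · rw [h3 _ le_rfl]
        exact c3
    · intro hp q hq
      obtain ⟨r, hr, l, a1, a2, a3, a4⟩ := hp q hq
      refine ⟨_, ⟨(l, fun l' => π (Jl l') r.s), ⟨a2, ?_, a4⟩, rfl⟩, r, hr, ?_⟩
      · rw [← a3]
        exact count_congr' _ _ _ fun l' _ => Iff.rfl
      · refine mem_iInter.2 fun l' => ?_
        intro r' hr' _
        exact pi_eq' he hπ hJ hr' a1 (by omega)
  rw [← h2]
  exact h1

include he hπ hJ in
theorem hechler {K : ℕ} (hZ1 : ∀ l m, {x | Z l x ≤ m}.Finite)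
    (hZ2 : ∀ l, ∀ F : Finset (ℕ → ℕ), F.card + K ≤ l → ∃ f, ∀ k ≥ f, ∃ x ∈ Y l,
      E e π (Jl l) (F : Set (ℕ → ℕ)) x ∧ Z l x = k)
    (hAv : ∀ l, ∀ X : Finset ℕ, (X : Set ℕ) ⊆ Y l → Av e π K (Jl l) X) :
    Hechler (zn e π Jl Y Z) := by
  classical
  intro D hD p
  obtain ⟨l0, hl0⟩ : ∃ l0, l0 = p.F.card + K + p.len := ⟨_, rfl⟩
  have hid : ∀ l, l ≤ e (Jl l) := fun l => (hJ.id_le l).trans (he.id_le _)
  have hL0 := hid l0
  obtain ⟨p1, hp1, hlen1, hF1⟩ := p.long (e (Jl l0)) (by omega)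
  have hJe : ∀ {l l' : ℕ}, l < l' → e (Jl l + 1) ≤ e (Jl l') := fun h => he.monotone (hJ h)
  have hJe' : ∀ {l l' : ℕ}, l ≤ l' → e (Jl l) ≤ e (Jl l') := fun h => he.monotone (hJ.monotone h)
  -- the part of the real which is decided
  let N0 : ℕ := Nat.count (Occ π Jl Y p1.s) l0
  have ht0 : ∀ i, ∃ m, i < N0 → ∃ l < l0, Occ π Jl Y p1.s l ∧
      Nat.count (Occ π Jl Y p1.s) l = i ∧ Z l (π (Jl l) p1.s) = m := by
    intro i
    by_cases hi : i < N0
    · obtain ⟨l, h1, h2, h3⟩ := count_surj _ _ _ hi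
      exact ⟨_, fun _ => ⟨l, h1, h2, h3, rfl⟩⟩
    · exact ⟨0, fun h => absurd h hi⟩
  choose t0 ht0 using ht0
  have hfl : ∀ l, ∃ f, l0 ≤ l → ∀ k ≥ f, ∃ x ∈ Y l, E e π (Jl l) (p1.F : Set (ℕ → ℕ)) x ∧
      Z l x = k := by
    intro l
    by_cases hl : l0 ≤ l
    · obtain ⟨f, hf⟩ := hZ2 l p1.F (by rw [hF1]; omega)
      exact ⟨f, fun _ => hf⟩
    · exact ⟨0, fun h => absurd h hl⟩
  choose fl hfl using hfl
  obtain ⟨c, hcD, hc⟩ := hD ⟨N0, t0, fun i => fl (l0 + (i - N0))⟩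
  obtain ⟨c1, c2, c3, c4⟩ := hc
  replace c1 : N0 ≤ c.len := c1
  replace c2 : ∀ i < N0, c.s i = t0 i := c2
  replace c4 : ∀ i, N0 ≤ i → i < c.len → fl (l0 + (i - N0)) ≤ c.s i := c4
  obtain ⟨l1, hl1⟩ : ∃ l1, l1 = l0 + (c.len - N0) := ⟨_, rfl⟩
  have hl01 : l0 ≤ l1 := by omega
  -- the blocks of the new part
  have hA : ∀ j, ∃ A : ℕ → Finset ℕ, (∀ n, e j ≤ n → n < e (j + 1) → e (Jl l0) ≤ n →
      (A n).card ≤ n ∧ ∀ f ∈ p1.F, f n ∈ A n) ∧
      ∀ l, l0 ≤ l → l < l1 → Jl l = j → π j A ∈ Y l ∧ Z l (π j A) = c.s (N0 + (l - l0)) := by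
    intro j
    by_cases hj : ∃ l, l0 ≤ l ∧ l < l1 ∧ Jl l = j
    · obtain ⟨l, h1, h2, rfl⟩ := hj
      have h3 := c4 (N0 + (l - l0)) (by omega) (by omega)
      have h4 : l0 + (N0 + (l - l0) - N0) = l := by omega
      rw [h4] at h3
      obtain ⟨x, hx1, ⟨A, hA1, hA2⟩, hx3⟩ := hfl l h1 _ h3
      refine ⟨A, fun n a b _ => hA1 n a b, fun l' _ _ hl' => ?_⟩
      have : l' = l := hJ.injective hl'
      subst this
      rw [hA2]
      exact ⟨hx1, hx3⟩
    · refine ⟨fun n => p1.F.image fun f => f n, fun n _ _ hn => ⟨?_, fun f hf => ?_⟩,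
        fun l a b h => absurd ⟨l, a, b, h⟩ hj⟩
      · refine Finset.card_image_le.trans (p1.card_F.trans ?_)
        rw [hlen1]
        exact hn
      · exact Finset.mem_image_of_mem _ hf
  choose A hA1 hA2 using hA
  -- the new reals
  let g' : ℕ → ℕ := fun l => (Finset.range (l + 1)).sup c.f
  have hg' : ∀ l i, i ≤ l → c.f i ≤ g' l := fun l i hi =>
    Finset.le_sup (f := c.f) (Finset.mem_range.2 (by omega))
  have hB : ∀ j, ∃ B : Finset (ℕ → ℕ), B.card ≤ K ∧ ∀ l, l1 ≤ l → Jl l = j → ∀ x ∈ Y l,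
      Z l x < g' l → ¬ E e π j (B : Set (ℕ → ℕ)) x := by
    intro j
    by_cases hj : ∃ l, l1 ≤ l ∧ Jl l = j
    · obtain ⟨l, h1, rfl⟩ := hj
      have hfin : {x | x ∈ Y l ∧ Z l x < g' l}.Finite :=
        (hZ1 l (g' l)).subset fun x hx => hx.2.le
      obtain ⟨B, hB1, hB2⟩ := hAv l hfin.toFinset (fun x hx => (hfin.mem_toFinset.1 hx).1)
      refine ⟨B, hB1, fun l' _ hl' x hx hxZ => ?_⟩
      have : l' = l := hJ.injective hl'
      subst this
      exact hB2 x (hfin.mem_toFinset.2 ⟨hx, hxZ⟩)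
    · exact ⟨∅, by simp, fun l a h => absurd ⟨l, a, h⟩ hj⟩
  choose B hB1 hB2 using hB
  obtain ⟨G, hG1, hG2⟩ := paste he B hB1
  have hAn : ∀ n, e (Jl l0) ≤ n → (A (blk e n) n).card ≤ n ∧ ∀ f ∈ p1.F, f n ∈ A (blk e n) n := by
    intro n hn
    obtain ⟨a1, a2, a3⟩ := blk_spec he hn
    exact hA1 _ n a2 a3 hn
  have hcard : (p1.F ∪ G).card ≤ e (Jl l1) := by
    refine (Finset.card_union_le _ _).trans ?_
    have := hJe' hl01
    rw [hF1]
    omega
  let q : Loc := p1.ext (e (Jl l1)) (fun n => A (blk e n) n) (p1.F ∪ G)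
    (fun n hn _ => (hAn n (by rw [← hlen1]; exact hn)).1) hcard
  have hqs : ∀ n, q.s n = if n < e (Jl l0) then p1.s n else A (blk e n) n := by
    intro n
    show (if n < p1.len then p1.s n else A (blk e n) n) = _
    rw [hlen1]
  have hqlen : q.len = e (Jl l1) := rfl
  have hqp1 : q ≤ p1 := by
    refine p1.ext_le _ _ _ _ _ (by rw [hlen1]; exact hJe' hl01) Finset.subset_union_left ?_
    intro f hf n hn _
    exact (hAn n (by rw [← hlen1]; exact hn)).2 f hf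
  -- the values of `q`
  have hv1 : ∀ l < l0, π (Jl l) q.s = π (Jl l) p1.s := by
    intro l hl
    exact pi_eq hπ hqp1 (by rw [hlen1]; exact hJe hl)
  have hv2 : ∀ l, l0 ≤ l → l < l1 → π (Jl l) q.s = π (Jl l) (A (Jl l)) := by
    intro l hl _
    refine hπ _ _ _ fun n h1 h2 => ?_
    have := hJe' hl
    rw [hqs, if_neg (by omega), blk_eq he h1 h2]
  have hocc : ∀ l, l0 ≤ l → l < l1 → Occ π Jl Y q.s l := by
    intro l h1 h2
    show π (Jl l) q.s ∈ Y l
    rw [hv2 l h1 h2]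
    exact (hA2 (Jl l) l h1 h2 rfl).1
  have hcount0 : Nat.count (Occ π Jl Y q.s) l0 = N0 := by
    refine count_congr' _ _ _ fun l hl => ?_
    show π (Jl l) q.s ∈ Y l ↔ π (Jl l) p1.s ∈ Y l
    rw [hv1 l hl]
  have hcount : ∀ k, l0 + k ≤ l1 → Nat.count (Occ π Jl Y q.s) (l0 + k) = N0 + k := by
    intro k
    induction k with
    | zero => intro _; simpa using hcount0
    | succ k ih =>
      intro hk
      rw [← add_assoc, Nat.count_succ, ih (by omega), if_pos (hocc _ (by omega) (by omega))]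
      omega
  refine ⟨q, Loc.trans hqp1 hp1, c, hcD, ?_, ?_⟩
  · intro i hi r hr
    refine ⟨r, r.refl, O_down he hπ hJ hr ?_⟩
    rcases lt_or_ge i N0 with hi0 | hi0
    · obtain ⟨l, h1, h2, h3, h4⟩ := ht0 i hi0
      refine ⟨l, ?_, ?_, ?_, ?_⟩
      · rw [hqlen]
        exact (hJe h1).trans (hJe' hl01)
      · show π (Jl l) q.s ∈ Y l
        rw [hv1 l h1]
        exact h2
      · rw [← h3]
        refine count_congr' _ _ _ fun l' hl' => ?_
        show π (Jl l') q.s ∈ Y l' ↔ π (Jl l') p1.s ∈ Y l'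
        rw [hv1 l' (by omega)]
      · rw [hv1 l h1, h4, c2 i hi0]
    · have h1 : l0 ≤ l0 + (i - N0) := by omega
      have h2 : l0 + (i - N0) < l1 := by omega
      refine ⟨l0 + (i - N0), ?_, hocc _ h1 h2, ?_, ?_⟩
      · rw [hqlen]
        exact hJe h2
      · rw [hcount _ (by omega)]
        omega
      · rw [hv2 _ h1 h2, (hA2 _ _ h1 h2 rfl).2]
        congr 1
        omega
  · intro i hi m r hr hrz
    obtain ⟨r', hr', l, h1, h2, h3, h4⟩ := hrz r r.refl
    have hr'q : r' ≤ q := Loc.trans hr' hr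
    have hvr : ∀ l' < l1, π (Jl l') r'.s = π (Jl l') q.s := by
      intro l' hl'
      exact pi_eq hπ hr'q (by rw [hqlen]; exact hJe hl')
    have hl1l : l1 ≤ l := by
      by_contra hcon
      push Not at hcon
      have e1 : Nat.count (Occ π Jl Y r'.s) l = Nat.count (Occ π Jl Y q.s) l := by
        refine count_congr' _ _ _ fun l' hl' => ?_
        show π (Jl l') r'.s ∈ Y l' ↔ π (Jl l') q.s ∈ Y l'
        rw [hvr l' (by omega)]
      have e2 : Occ π Jl Y q.s l := by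
        show π (Jl l) q.s ∈ Y l
        rw [← hvr l hcon]
        exact h2
      have e3 : Nat.count (Occ π Jl Y q.s) (l + 1) = Nat.count (Occ π Jl Y q.s) l + 1 := by
        rw [Nat.count_succ, if_pos e2]
      have e4 : Nat.count (Occ π Jl Y q.s) (l + 1) ≤ Nat.count (Occ π Jl Y q.s) l1 :=
        Nat.count_monotone _ hcon
      have e5 := hcount (c.len - N0) (by omega)
      rw [← hl1] at e5
      omega
    have hEB : E e π (Jl l) (B (Jl l) : Set (ℕ → ℕ)) (π (Jl l) r'.s) := by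
      refine E_mono (hG2 (Jl l)) ⟨r'.s, fun n a b => ⟨r'.card_s n (by omega), fun f hf => ?_⟩, rfl⟩
      have := hJe' hl1l
      exact hr'q.2.2.2 f (Finset.mem_union_right _ hf) n (by rw [hqlen]; omega) (by omega)
    have h5 : ¬ Z l (π (Jl l) r'.s) < g' l := fun h6 => hB2 (Jl l) l hl1l rfl _ h2 h6 hEB
    rw [h4] at h5
    have h6 : i ≤ l := by
      rw [← h3]
      exact Nat.count_le _
    have h7 := hg' l i h6
    omega

end Read

include he in
/-- **Case (a).** A Hechler real. -/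
theorem adds (hπ : Local e π) {K : ℕ} (ha : ∀ K' J, ∃ j ≥ J, ∃ Y : Set ℕ,
    (∀ X : Finset ℕ, (X : Set ℕ) ⊆ Y → Av e π K j X) ∧ ¬ Av e π K' j Y) :
    AddsHechler (subf e π) := by
  obtain ⟨Jl, Y, hJ, h1, h2⟩ := blocks ha
  choose Z hZ1 hZ2 using fun l => coding (h1 l) (h2 l)
  have hH := hechler (Z := Z) he hπ hJ hZ1 hZ2 h1
  refine ⟨zn e π Jl Y Z, ⟨zn_mem he hπ hJ, ?_, ?_⟩, hH⟩
  · intro n m m' hmm
    rw [eq_empty_iff_forall_notMem]
    rintro p ⟨hp, hp'⟩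
    obtain ⟨r, hr, hrO⟩ := hp p p.refl
    obtain ⟨r', hr', hrO'⟩ := hp' r hr
    exact hmm (O_disj (O_down he hπ hJ hr' hrO) hrO')
  · intro n p
    obtain ⟨q, hq, c, hc, h3, -⟩ := hH {c | n < c.len} (by
      intro c
      refine ⟨⟨c.len + n + 1, fun i => if i < c.len then c.s i else c.f i, c.f⟩,
        by show n < c.len + n + 1; omega, by show c.len ≤ c.len + n + 1; omega, fun i hi => ?_,
        fun i => le_rfl, fun i hi _ => ?_⟩
      · show (if i < c.len then c.s i else c.f i) = c.s i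
        rw [if_pos hi]
      · show c.f i ≤ (if i < c.len then c.s i else c.f i)
        rw [if_neg (by omega)]) p
    exact ⟨q, hq, _, h3 n hc⟩

include he in
/-- **Theorem.** If the subforcing generated by `ψ` adds a dominating real, then it adds a
Hechler real. -/
theorem main (hπ : Local e π) (h : AddsDominating (subf e π)) : AddsHechler (subf e π) := by
  by_contra hcon
  obtain ⟨d, hd, p0, hdom⟩ := h
  refine not_dominating he hπ hd ?_ p0 hdom
  intro K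
  by_contra hK
  push Not at hK
  exact hcon (adds he hπ (K := K) fun K' J => hK K' J)

end Pool.Agent.helper45.LOC
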