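import Pool.Agent.helper45.LOC.Read

/-!
# Localization forcing: sanity checks of the definitions

The generated family is a complete subalgebra, and the maxima of the terms of the generic slalom
form a dominating real.
-/

set_option autoImplicit false

namespace Pool.Agent.helper45.LOC

theorem subf_isSub {e : ℕ → ℕ} (he : StrictMono e) {π : ℕ → (ℕ → Finset ℕ) → ℕ}
    (hπ : Local e π) : IsSub (subf e π) := by
  refine ⟨fun a ha => (gen_inv he hπ ha).1, fun a ha A hA hS => hA.neg_mem a (ha A hA hS),
    fun S hS A hA hS' => hA.sInter_mem S fun a ha => hS ha A hA hS'⟩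

theorem max_dominating : AddsDominating (subf id (fun n A => (A n).sup id)) := by
  classical
  have hπ : Local id (fun n (A : ℕ → Finset ℕ) => (A n).sup id) := by
    intro j A A' h
    show (A j).sup id = (A' j).sup id
    rw [h j le_rfl (Nat.lt_succ_self j)]
  refine ⟨fun n m => val id (fun n A => (A n).sup id) n m, ⟨?_, ?_, ?_⟩,
    ⟨0, fun _ => ∅, ∅, fun i hi => absurd hi (Nat.not_lt_zero i), by simp⟩, ?_⟩
  · intro n m A _ hS
    exact hS ⟨n, m, rfl⟩
  · intro n m m' hmm
    rw [Set.eq_empty_iff_forall_notMem]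
    rintro p ⟨h1, h2⟩
    obtain ⟨q, hq, hlen, -⟩ := p.long (p.len + (n + 1)) (by omega)
    exact hmm ((h1 q hq (by simp only [id]; omega)).symm.trans (h2 q hq (by simp only [id]; omega)))
  · intro n p
    obtain ⟨q, hq, hlen, -⟩ := p.long (p.len + (n + 1)) (by omega)
    refine ⟨q, hq, (q.s n).sup id, fun r hr _ => ?_⟩
    exact pi_eq hπ hr (j := n) (by simp only [id]; omega)
  · intro x p _
    obtain ⟨q, hq, hlen, hF⟩ := p.long (p.len + 1) (by omega)
    have hcard : (insert x q.F).card ≤ q.len := by
      refine (Finset.card_insert_le _ _).trans ?_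
      rw [hF, hlen]
      exact Nat.succ_le_succ p.card_F
    refine ⟨⟨q.len, q.s, insert x q.F, q.card_s, hcard⟩, Loc.trans ?_ hq, q.len, ?_⟩
    · exact ⟨le_rfl, fun _ _ => rfl, Finset.subset_insert _ _, fun _ _ _ h1 h2 => by
        exact absurd h1 (not_le.2 h2)⟩
    · intro n hn m r hr hrm
      obtain ⟨r', hr', hlen', -⟩ := r.long (r.len + (n + 1)) (by omega)
      have h1 := hrm r' hr' (by simp only [id]; omega)
      have h2 : x n ∈ r'.s n := by
        refine (Loc.trans hr' hr).2.2.2 x (Finset.mem_insert_self _ _) n hn (by omega)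
      rw [← h1]
      exact Finset.le_sup (f := id) h2

end Pool.Agent.helper45.LOC
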